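import Pool.Agent.R341.SG.Stm

/-!
# SG-LAB: labellings
-/

set_option autoImplicit false

namespace Pool.Agent.R938.SG

open Finset Pool.Agent.R341.SG

/-- averaging over translates -/
theorem avg {G : Type} [Group G] [Fintype G] {ι : Type*} (T : Finset ι) (τ : ι → G)
    (P : G → Prop) [DecidablePred P] (ε : ℝ) (hT : 0 < T.card)
    (h : ∀ σ, ((T.filter fun t => P (σ * τ t)).card : ℝ) ≤ ε * T.card) :
    ((univ.filter P).card : ℝ) ≤ ε * Fintype.card G := by
  have h1 : ∀ t, (∑ σ : G, if P (σ * τ t) then (1 : ℝ) else 0) = ((univ.filter P).card : ℝ) := by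
    intro t
    have h : (∑ σ : G, if P (σ * τ t) then (1 : ℝ) else 0) = ∑ σ : G, if P σ then (1 : ℝ) else 0 :=
      Fintype.sum_equiv (Equiv.mulRight (τ t)) _ _ (fun _ => rfl)
    rw [h]
    simp
  have h2 : ∑ σ : G, ((T.filter fun t => P (σ * τ t)).card : ℝ) =
      T.card * ((univ.filter P).card : ℝ) := by
    have : ∀ σ : G, ((T.filter fun t => P (σ * τ t)).card : ℝ) =
        ∑ t ∈ T, if P (σ * τ t) then (1 : ℝ) else 0 := by
      intro σ
      simp
    rw [Finset.sum_congr rfl fun σ _ => this σ, Finset.sum_comm,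
      Finset.sum_congr rfl fun t _ => h1 t]
    simp
  have h3 : ∑ σ : G, ((T.filter fun t => P (σ * τ t)).card : ℝ) ≤ ∑ _σ : G, ε * T.card :=
    Finset.sum_le_sum fun σ _ => h σ
  rw [h2, Finset.sum_const, Finset.card_univ, nsmul_eq_mul] at h3
  have hT' : (0 : ℝ) < T.card := by exact_mod_cast hT
  have h4 : (T.card : ℝ) * ((univ.filter P).card : ℝ) ≤ T.card * (ε * Fintype.card G) := by
    calc (T.card : ℝ) * ((univ.filter P).card : ℝ) ≤ Fintype.card G * (ε * T.card) := h3
      _ = T.card * (ε * Fintype.card G) := by ring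
  exact le_of_mul_le_mul_left h4 hT'

theorem ex_perm {n : ℕ} {K K' J : Finset (Fin n)} (h1 : K ⊆ J) (h2 : K' ⊆ J)
    (hc : K.card = K'.card) :
    ∃ τ : Equiv.Perm (Fin n), K.map τ.toEmbedding = K' ∧ J.map τ.toEmbedding = J := by
  classical
  let e : {x : {x // x ∈ J} // x.1 ∈ K} ≃ {x : {x // x ∈ J} // x.1 ∈ K'} :=
    (Equiv.subtypeSubtypeEquivSubtype (fun {x} hx => h1 hx)).trans
      ((Finset.equivOfCardEq hc).trans
        (Equiv.subtypeSubtypeEquivSubtype (fun {x} hx => h2 hx)).symm)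
  let ρ : Equiv.Perm {x // x ∈ J} := e.extendSubtype
  let τ : Equiv.Perm (Fin n) := Equiv.Perm.ofSubtype ρ
  have hτ : ∀ x (hx : x ∈ J), τ x = (ρ ⟨x, hx⟩ : Fin n) := fun x hx =>
    Equiv.Perm.ofSubtype_apply_of_mem ρ hx
  refine ⟨τ, ?_, ?_⟩
  · refine Finset.eq_of_subset_of_card_le ?_ (by rw [card_map, hc])
    intro y hy
    obtain ⟨x, hx, rfl⟩ := mem_map.1 hy
    show τ x ∈ K'
    rw [hτ x (h1 hx)]
    exact e.extendSubtype_mem ⟨x, h1 hx⟩ hx
  · refine Finset.eq_of_subset_of_card_le ?_ (by rw [card_map])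
    intro y hy
    obtain ⟨x, hx, rfl⟩ := mem_map.1 hy
    show τ x ∈ J
    rw [hτ x hx]
    exact (ρ ⟨x, hx⟩).2

theorem map_mul {n : ℕ} (σ τ : Equiv.Perm (Fin n)) (A : Finset (Fin n)) :
    A.map (σ * τ).toEmbedding = (A.map τ.toEmbedding).map σ.toEmbedding := by
  rw [map_map]
  rfl

open Classical in
theorem bad1 (h1 : SV) (n r rp j : ℕ) (K J : Finset (Fin n)) (hKJ : K ⊆ J) (hK : K.card = rp)
    (hJ : J.card = j) (hr : r ≤ rp) (hrj : r < j) (B : Finset (Finset (Fin n))) (y : ℝ)
    (hy : 0 < y) :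
    (((univ : Finset (Equiv.Perm (Fin n))).filter fun σ =>
      y * (j.choose r : ℝ) ≤ (((powersetCard r (J.map σ.toEmbedding)).filter fun I => I ∈ B).card : ℝ)
      ∧ (((powersetCard r (K.map σ.toEmbedding)).filter fun I => I ∈ B).card : ℝ) <
        y / 2 * (rp.choose r : ℝ)).card : ℝ)
    ≤ 4 * ((j : ℝ) - rp) / (((j : ℝ) - r) * y) * (n.factorial : ℝ) := by
  have hrpj : rp ≤ j := by rw [← hK, ← hJ]; exact card_le_card hKJ
  have hε : 0 ≤ 4 * ((j : ℝ) - rp) / (((j : ℝ) - r) * y) := by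
    have e1 : (rp : ℝ) ≤ j := by exact_mod_cast hrpj
    have e2 : (r : ℝ) < j := by exact_mod_cast hrj
    have e3 : (0 : ℝ) < (j : ℝ) - r := by linarith
    have e4 : (0 : ℝ) ≤ (j : ℝ) - rp := by linarith
    positivity
  have hex : ∀ K' : Finset (Fin n), ∃ τ : Equiv.Perm (Fin n), K' ∈ powersetCard rp J →
      K.map τ.toEmbedding = K' ∧ J.map τ.toEmbedding = J := by
    intro K'
    by_cases h : K' ∈ powersetCard rp J
    · obtain ⟨h2, h3⟩ := mem_powersetCard.1 h
      obtain ⟨τ, h4⟩ := ex_perm hKJ h2 (by rw [hK, h3])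
      exact ⟨τ, fun _ => h4⟩
    · exact ⟨1, fun h' => absurd h' h⟩
  choose τ hτ using hex
  have hmain := avg (powersetCard rp J) τ (fun σ : Equiv.Perm (Fin n) =>
      y * (j.choose r : ℝ) ≤ (((powersetCard r (J.map σ.toEmbedding)).filter fun I => I ∈ B).card : ℝ)
      ∧ (((powersetCard r (K.map σ.toEmbedding)).filter fun I => I ∈ B).card : ℝ) <
        y / 2 * (rp.choose r : ℝ)) (4 * ((j : ℝ) - rp) / (((j : ℝ) - r) * y))
      (by rw [card_powersetCard, hJ]; exact Nat.choose_pos hrpj) ?_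
  · rw [Fintype.card_perm, Fintype.card_fin] at hmain
    exact hmain
  intro σ
  by_cases hok : y * (j.choose r : ℝ) ≤
      (((powersetCard r (J.map σ.toEmbedding)).filter fun I => I ∈ B).card : ℝ)
  · have hv := h1 n r rp j (J.map σ.toEmbedding) (by rw [card_map, hJ]) hr hrpj hrj B y hy hok
    rw [card_powersetCard, hJ]
    refine le_trans ?_ hv
    norm_cast
    refine card_le_card_of_injOn (fun K' => K'.map σ.toEmbedding) ?_ ?_
    · intro K' hK'
      have hK'' := mem_filter.1 (mem_coe.1 hK')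
      obtain ⟨h2, h3⟩ := mem_powersetCard.1 hK''.1
      obtain ⟨h4, h5⟩ := hτ K' hK''.1
      refine mem_coe.2 (mem_filter.2 ⟨mem_powersetCard.2 ⟨map_subset_map.2 h2, ?_⟩, ?_⟩)
      · rw [card_map, h3]
      · have h6 := hK''.2.2
        rw [map_mul, h4] at h6
        exact h6
    · intro a _ b _ hab
      exact Finset.map_injective _ hab
  · have : (powersetCard rp J).filter (fun t => y * (j.choose r : ℝ) ≤
        (((powersetCard r (J.map (σ * τ t).toEmbedding)).filter fun I => I ∈ B).card : ℝ)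
      ∧ (((powersetCard r (K.map (σ * τ t).toEmbedding)).filter fun I => I ∈ B).card : ℝ) <
        y / 2 * (rp.choose r : ℝ)) = ∅ := by
      refine filter_eq_empty_iff.2 fun K' hK' hc => hok ?_
      have h6 := hc.1
      rw [map_mul, (hτ K' hK').2] at h6
      exact h6
    rw [this, card_empty, Nat.cast_zero]
    positivity

open Classical in
theorem bad2 (h2 : SJE) (n r rp : ℕ) (K : Finset (Fin n)) (hK : K.card = rp)
    (hr : r ≤ rp) (hrp : 2 * (rp - r) + 2 ≤ rp) (W B : Finset (Finset (Fin n))) (x y : ℝ)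
    (hx : 0 < x) (hy : 0 < y) (hW : W ⊆ powersetCard r K)
    (hWx : x * (rp.choose r : ℝ) ≤ (W.card : ℝ)) :
    (((univ : Finset (Equiv.Perm (Fin n))).filter fun σ =>
      y / 2 * (rp.choose r : ℝ) ≤
        (((powersetCard r (K.map σ.toEmbedding)).filter fun I => I ∈ B).card : ℝ)
      ∧ ∀ A ∈ W, A.map σ.toEmbedding ∉ B).card : ℝ)
    ≤ 6 / (rp * x * y) * (n.factorial : ℝ) := by
  have hε : 0 ≤ 6 / ((rp : ℝ) * x * y) := by positivity
  have hmain := avg (univ : Finset (Equiv.Perm {a // a ∈ K})) (fun π => Equiv.Perm.ofSubtype π)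
      (fun σ : Equiv.Perm (Fin n) => y / 2 * (rp.choose r : ℝ) ≤
        (((powersetCard r (K.map σ.toEmbedding)).filter fun I => I ∈ B).card : ℝ)
      ∧ ∀ A ∈ W, A.map σ.toEmbedding ∉ B) (6 / ((rp : ℝ) * x * y))
      (by rw [card_univ]; exact Fintype.card_pos) ?_
  · rw [Fintype.card_perm, Fintype.card_fin] at hmain
    exact hmain
  intro σ
  have hof : ∀ (π : Equiv.Perm {a // a ∈ K}) (a : Fin n) (ha : a ∈ K),
      Equiv.Perm.ofSubtype π a = (π ⟨a, ha⟩ : Fin n) := fun π a ha =>
    Equiv.Perm.ofSubtype_apply_of_mem π ha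
  have hKK : ∀ π : Equiv.Perm {a // a ∈ K},
      K.map (Equiv.Perm.ofSubtype π).toEmbedding = K := by
    intro π
    refine Finset.eq_of_subset_of_card_le ?_ (by rw [card_map])
    intro b hb
    obtain ⟨a, ha, rfl⟩ := mem_map.1 hb
    show Equiv.Perm.ofSubtype π a ∈ K
    rw [hof π a ha]
    exact (π ⟨a, ha⟩).2
  by_cases hok : y / 2 * (rp.choose r : ℝ) ≤
      (((powersetCard r (K.map σ.toEmbedding)).filter fun I => I ∈ B).card : ℝ)
  · -- the embedding of the subtype
    let v : {a // a ∈ K} ↪ Fin n := Function.Embedding.subtype _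
    have hv : ∀ A : Finset (Fin n), A ⊆ K → (A.subtype (· ∈ K)).map v = A := by
      intro A hA
      rw [Finset.subtype_map]
      exact filter_true_of_mem fun a ha => hA ha
    have hrange : ∀ A : Finset {a // a ∈ K}, A.map v ⊆ K := by
      intro A b hb
      obtain ⟨a, _, rfl⟩ := mem_map.1 hb
      exact a.2
    let W' : Finset (Finset {a // a ∈ K}) := W.image fun A => A.subtype (· ∈ K)
    let B' : Finset (Finset {a // a ∈ K}) :=
      (powersetCard r univ).filter fun A => (A.map v).map σ.toEmbedding ∈ B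
    have hW' : W' ⊆ powersetCard r univ := by
      intro A' hA'
      obtain ⟨A, hA, rfl⟩ := mem_image.1 hA'
      obtain ⟨h3, h4⟩ := mem_powersetCard.1 (hW hA)
      refine mem_powersetCard.2 ⟨subset_univ _, ?_⟩
      rw [← card_map v, hv A h3, h4]
    have hWc : W'.card = W.card := by
      refine card_image_of_injOn fun A hA A' hA' hAA' => ?_
      have h3 := (mem_powersetCard.1 (hW (mem_coe.1 hA))).1
      have h4 := (mem_powersetCard.1 (hW (mem_coe.1 hA'))).1
      rw [← hv A h3, ← hv A' h4]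
      exact congrArg (fun S => S.map v) hAA'
    have hBc : (((powersetCard r (K.map σ.toEmbedding)).filter fun I => I ∈ B).card : ℝ) ≤
        (B'.card : ℝ) := by
      norm_cast
      refine card_le_card_of_injOn
        (fun I => (I.map σ.symm.toEmbedding).subtype (· ∈ K)) ?_ ?_
      · intro I hI
        have hI' := mem_filter.1 (mem_coe.1 hI)
        obtain ⟨h3, h4⟩ := mem_powersetCard.1 hI'.1
        have h5 : I.map σ.symm.toEmbedding ⊆ K := by
          intro b hb
          obtain ⟨a, ha, rfl⟩ := mem_map.1 hb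
          obtain ⟨c, hc, rfl⟩ := mem_map.1 (h3 ha)
          show σ.symm (σ c) ∈ K
          rwa [Equiv.symm_apply_apply]
        have h6 : (I.map σ.symm.toEmbedding).map σ.toEmbedding = I := by
          ext b
          simp
        refine mem_coe.2 (mem_filter.2 ⟨mem_powersetCard.2 ⟨subset_univ _, ?_⟩, ?_⟩)
        · rw [← card_map v, hv _ h5, card_map, h4]
        · show (((I.map σ.symm.toEmbedding).subtype (· ∈ K)).map v).map σ.toEmbedding ∈ B
          rw [hv _ h5, h6]
          exact hI'.2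
      · intro I hI I' hI' hII'
        have key : ∀ I ∈ ((powersetCard r (K.map σ.toEmbedding)).filter fun I => I ∈ B : Finset _),
            (((I.map σ.symm.toEmbedding).subtype (· ∈ K)).map v).map σ.toEmbedding = I := by
          intro I hI
          have hI' := mem_filter.1 hI
          obtain ⟨h3, h4⟩ := mem_powersetCard.1 hI'.1
          have h5 : I.map σ.symm.toEmbedding ⊆ K := by
            intro b hb
            obtain ⟨a, ha, rfl⟩ := mem_map.1 hb
            obtain ⟨c, hc, rfl⟩ := mem_map.1 (h3 ha)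
            show σ.symm (σ c) ∈ K
            rwa [Equiv.symm_apply_apply]
          rw [hv _ h5]
          ext b
          simp
        rw [← key I (mem_coe.1 hI), ← key I' (mem_coe.1 hI')]
        exact congrArg (fun S => (S.map v).map σ.toEmbedding) hII'
    have hj := h2 {a // a ∈ K} rp r (by rw [Fintype.card_coe, hK]) hr hrp W' B' x (y / 2) hx
      (half_pos hy) hW' (filter_subset _ _) (by rw [hWc]; exact hWx) (hok.trans hBc)
    have hcard : ((univ : Finset (Equiv.Perm {a // a ∈ K})).card : ℝ) = (rp.factorial : ℝ) := by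
      rw [card_univ, Fintype.card_perm, Fintype.card_coe, hK]
    rw [hcard]
    have he : 3 / ((rp : ℝ) * x * (y / 2)) = 6 / (rp * x * y) := by
      have hrp0 : (rp : ℝ) ≠ 0 := by
        have : 0 < rp := by omega
        positivity
      field_simp
      norm_num
    rw [he] at hj
    refine le_trans ?_ hj
    norm_cast
    refine card_le_card fun π hπ => ?_
    have hπ' := (mem_filter.1 hπ).2
    refine mem_filter.2 ⟨mem_univ _, fun A' hA' hB => ?_⟩
    obtain ⟨A, hA, rfl⟩ := mem_image.1 hA'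
    have h3 := (mem_powersetCard.1 (hW hA)).1
    refine hπ'.2 A hA ?_
    have h4 := (mem_filter.1 hB).2
    rw [map_mul]
    have h5 : A.map (Equiv.Perm.ofSubtype π).toEmbedding =
        ((A.subtype (· ∈ K)).map π.toEmbedding).map v := by
      ext b
      simp only [mem_map, mem_subtype]
      constructor
      · rintro ⟨a, ha, rfl⟩
        refine ⟨π ⟨a, h3 ha⟩, ⟨⟨a, h3 ha⟩, ha, rfl⟩, ?_⟩
        exact (hof π a (h3 ha)).symm
      · rintro ⟨c, ⟨a, ha, rfl⟩, rfl⟩
        exact ⟨a.1, ha, hof π a.1 a.2⟩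
    rw [h5]
    exact h4
  · have : (univ : Finset (Equiv.Perm {a // a ∈ K})).filter (fun π => y / 2 * (rp.choose r : ℝ) ≤
        (((powersetCard r (K.map (σ * Equiv.Perm.ofSubtype π).toEmbedding)).filter
          fun I => I ∈ B).card : ℝ)
      ∧ ∀ A ∈ W, A.map (σ * Equiv.Perm.ofSubtype π).toEmbedding ∉ B) = ∅ := by
      refine filter_eq_empty_iff.2 fun π _ hc => hok ?_
      have h6 := hc.1
      rw [map_mul, hKK π] at h6
      exact h6
    rw [this, card_empty, Nat.cast_zero]
    positivity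

theorem card3 {α : Type*} [DecidableEq α] {S S1 S2 : Finset α} {a b c : ℝ} (h : S ⊆ S1 ∪ S2)
    (h1 : (S1.card : ℝ) ≤ a * c) (h2 : (S2.card : ℝ) ≤ b * c) : (S.card : ℝ) ≤ (a + b) * c := by
  have hc : S.card ≤ S1.card + S2.card := (card_le_card h).trans (card_union_le _ _)
  have hc' : (S.card : ℝ) ≤ S1.card + S2.card := by exact_mod_cast hc
  rw [add_mul]
  linarith

open Classical in
theorem lab (h1 : SV) (h2 : SJE) : SLAB := by
  intro n r rp j K J hKJ hK hJ hr hrj hrp W B x y hx hy hW hWx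
  have hb1 := bad1 h1 n r rp j K J hKJ hK hJ hr hrj B y hy
  have hb2 := bad2 h2 n r rp K hK hr hrp W B x y hx hy hW hWx
  have hsub : ((univ : Finset (Equiv.Perm (Fin n))).filter fun σ =>
      y * (j.choose r : ℝ) ≤ (((powersetCard r (J.map σ.toEmbedding)).filter fun I => I ∈ B).card : ℝ)
      ∧ ∀ A ∈ W, A.map σ.toEmbedding ∉ B) ⊆
      ((univ : Finset (Equiv.Perm (Fin n))).filter fun σ =>
      y * (j.choose r : ℝ) ≤ (((powersetCard r (J.map σ.toEmbedding)).filter fun I => I ∈ B).card : ℝ)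
      ∧ (((powersetCard r (K.map σ.toEmbedding)).filter fun I => I ∈ B).card : ℝ) <
        y / 2 * (rp.choose r : ℝ)) ∪
      ((univ : Finset (Equiv.Perm (Fin n))).filter fun σ =>
      y / 2 * (rp.choose r : ℝ) ≤
        (((powersetCard r (K.map σ.toEmbedding)).filter fun I => I ∈ B).card : ℝ)
      ∧ ∀ A ∈ W, A.map σ.toEmbedding ∉ B) := by
    intro σ hσ
    have hσ' := (mem_filter.1 hσ).2
    rw [mem_union]
    by_cases h : (((powersetCard r (K.map σ.toEmbedding)).filter fun I => I ∈ B).card : ℝ) <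
        y / 2 * (rp.choose r : ℝ)
    · exact Or.inl (mem_filter.2 ⟨mem_univ _, hσ'.1, h⟩)
    · exact Or.inr (mem_filter.2 ⟨mem_univ _, not_lt.1 h, hσ'.2⟩)
  exact card3 hsub hb1 hb2

end Pool.Agent.R938.SG
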